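import Pool.Agent.H.MP_1220fe_lc.E

set_option autoImplicit false

/-! Subshifts of finite type with an invariant point have a computable point. -/

namespace Pool.Agent.H.MP_bced1d_lc

open Pool.Agent.Lib.helper21.PR Pool.Agent.H.MP_1220fe_lc Encodable

attribute [local irreducible] Primrec Computable

/-- the subshift of finite type with the finite list `F` of forbidden patterns -/
def Sft {H : Type} [Group H] {k : ℕ} (F : List (Finset H × (H → Fin k))) : Set (H → Fin k) :=
  {x | ∀ g, ∀ q ∈ F, ¬ ∀ h ∈ q.1, x (g * h) = q.2 h}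

theorem sft_rel {H : Type} [Group H] {k r : ℕ} (s : Fin r → H) (R : Fin r → Fin k → Fin k → Prop) :
    ∃ F, Sft F = {x | ∀ g i, R i (x g) (x (g * s i))} := by
  classical
  let Q : Fin r × Fin k × Fin k → H → Fin k := fun t h => if h = s t.1 then t.2.2 else t.2.1
  refine ⟨(Finset.univ.filter fun t => ¬ R t.1 (Q t 1) (Q t (s t.1))).toList.map
    fun t => ({1, s t.1}, Q t), Set.ext fun x => ⟨fun h g i => not_not.1 fun c => ?_,
      fun h g q hq c => ?_⟩⟩
  · have : Q (i, x g, x (g * s i)) 1 = x g := by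
      unfold Q
      split_ifs with e
      exacts [by rw [← e, mul_one], rfl]
    exact h g _ (List.mem_map.2 ⟨(i, x g, x (g * s i)), by simpa [this, Q] using c, rfl⟩)
      (by simp [this, Q])
  · obtain ⟨t, h1, rfl⟩ := List.mem_map.1 hq
    have := h g t.1
    rw [c _ (by simp), ← mul_one g, c _ (by simp)] at this
    simp [this] at h1

def ct (β : Bool) (w : List (Fin 61 × Bool)) : ℕ := w.countP fun a => decide (a = (60, β))

theorem p_ct (β : Bool) : Primrec (ct β) := by unfold ct; fun_prop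

theorem wt_ct (w : List (Fin 61 × Bool)) : (w.map wt).sum = ct true w - ct false w := by
  induction w with
  | nil => rfl
  | cons a w ih =>
    obtain ⟨i, β⟩ := a
    by_cases e : i = 60 <;> cases β <;> simp [ih, wt, ct, e] <;> omega

theorem emod (a b : ℕ) {p : ℕ} (h : 0 < p) : ((a : ℤ) - b) % p = ((a + (p - 1) * b) % p : ℕ) := by
  obtain ⟨p, rfl⟩ : ∃ n, p = n + 1 := ⟨p - 1, by omega⟩
  rw [Int.natCast_mod, ← Int.add_mul_emod_self_left _ _ b]
  congr 1
  push_cast
  ring

variable {X : List (Fin 61 × Bool) → Prop} {ζ : G (Rl X) → ℤ}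

theorem inv_zeta {A : Type} {x : G (Rl X) → A} (h : Inv x) (k : ∀ w, ζ (mk _ w) = (w.map wt).sum)
    (g : G (Rl X)) : x g = x (gn _ 60 ^ ζ g) := by
  obtain ⟨w, rfl⟩ := mk_surj g
  simpa [k] using h.pow w 1

theorem per {k : ℕ} {F : List (Finset (G (Rl X)) × (G (Rl X) → Fin k))} {x : G (Rl X) → Fin k}
    (h1 : ∀ g h, ζ (g * h) = ζ g + ζ h) (h2 : ∀ w, ζ (mk _ w) = (w.map wt).sum) (hx : x ∈ Sft F)
    (h : Inv x) : ∃ y ∈ Sft F, Computable (hat (gn _) y) := by
  obtain ⟨L, hL⟩ : ∃ L : ℕ, ∀ q ∈ F, ∀ g ∈ q.1, (ζ g).natAbs ≤ L :=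
    ⟨(F.map fun q => q.1.sup fun g => (ζ g).natAbs).sum, fun q hq g hg =>
      (Finset.le_sup (f := fun g => (ζ g).natAbs) hg).trans
        (List.single_le_sum (by simp) _ (List.mem_map_of_mem hq))⟩
  obtain ⟨ξ, h3⟩ : ∃ ξ : ℤ → Fin k, ∀ g, x g = ξ (ζ g) :=
    ⟨fun m => x (gn _ 60 ^ m), inv_zeta h h2⟩
  have h4 : ∀ m, ∃ g, ζ g = m := fun m => ⟨mk _ (List.replicate m.toNat (60, true) ++
    List.replicate (-m).toNat (60, false)), by simp [h2, wt]; omega⟩
  obtain ⟨a, p, h5, h6⟩ : ∃ (a : ℤ) (p : ℕ), L < p ∧ ∀ i : ℤ, i.natAbs ≤ L → ξ (a + p + i) = ξ (a + i) := by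
    have : ∀ i j : ℕ, i < j → ((fun c : Fin (2 * L + 1) => ξ (i * (L + 1) + (c - L))) =
        fun c : Fin (2 * L + 1) => ξ (j * (L + 1) + (c - L))) →
        ∃ (a : ℤ) (p : ℕ), L < p ∧ ∀ i : ℤ, i.natAbs ≤ L → ξ (a + p + i) = ξ (a + i) := by
      intro i j c e
      obtain ⟨n, rfl⟩ := Nat.exists_eq_add_of_lt c
      refine ⟨i * (L + 1), (n + 1) * (L + 1), by nlinarith, fun m hm => ?_⟩
      have := congrFun e ⟨(m + L).toNat, by omega⟩
      simp only [show (((m + L).toNat : ℕ) : ℤ) - L = m by omega] at this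
      rw [this]
      congr 1
      push_cast
      ring
    obtain ⟨i, j, c, e⟩ := Finite.exists_ne_map_eq_of_infinite
      fun j : ℕ => fun c : Fin (2 * L + 1) => ξ (j * (L + 1) + (c - L))
    exact c.lt_or_gt.elim (this i j · e) (this j i · e.symm)
  have h7 : ∀ m i : ℤ, i.natAbs ≤ L → ξ (a + (m + i) % p) = ξ (a + m % p + i) := fun m i hi => by
    have b1 := Int.emod_nonneg m (show (p : ℤ) ≠ 0 by omega)
    have b2 := Int.emod_lt_of_pos m (show (0 : ℤ) < p by omega)
    rw [← Int.emod_add_emod]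
    generalize m % p = r at b1 b2
    rcases lt_or_ge (r + i) 0 with c | c
    · rw [← Int.add_emod_right, Int.emod_eq_of_lt (by omega) (by omega), add_assoc a r,
        ← h6 (r + i) (by omega)]
      congr 1
      ring
    rcases lt_or_ge (r + i) p with d | d
    · rw [Int.emod_eq_of_lt c d, add_assoc]
    · rw [← Int.sub_emod_right, Int.emod_eq_of_lt (by omega) (by omega), ← h6 _ (by omega)]
      congr 1
      ring
  refine ⟨fun g => ξ (a + ζ g % p), fun g q hq c => ?_, ?_⟩
  · obtain ⟨g', e⟩ := h4 (a + ζ g % p)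
    exact hx g' q hq fun s hs => by rw [h3, h1, e, ← h7 _ _ (hL q hq s hs), ← h1]; exact c s hs
  · have := p_ct true
    have := p_ct false
    generalize hl : (List.range p).map (fun i : ℕ => (ξ (a + i)).val) = l
    refine (Primrec.to_comp (f := fun n => ((decode (α := List (Fin 61 × Bool)) n).map fun w =>
      l.getD ((ct true w + (p - 1) * ct false w) % p) 0).getD 0) (by fun_prop)).of_eq fun n => ?_
    unfold hat
    cases decode (α := List (Fin 61 × Bool)) n with
    | none => rfl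
    | some w => simp [ev_eq, h2, wt_ct, emod _ _ (show 0 < p by omega), ← hl,
        Nat.mod_lt _ (show 0 < p by omega)]

end Pool.Agent.H.MP_bced1d_lc
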