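import Pool.Agent.H.MP_bced1d_lc.A

set_option autoImplicit false

/-! A finite holonomy layer. -/

namespace Pool.Agent.H.MP_bced1d_lc

open Pool.Agent.Lib.helper21.PR Pool.Agent.H.MP_1220fe_lc Matrix

abbrev Al := Fin 2 × (Matrix (ZMod 3) (ZMod 3) (ZMod 2))ˣ

def Ru (i : Fin 61) (x y : Al) : Prop := (i = 60 → y.2 = x.2) ∧ (i ≠ 60 → y.1 = x.1 ∧ (i.val % 10 ≤ 2 →
  y.2.val = x.2.val * el (rw (i / 20) (i / 10)) (i / 20 : ℕ)
    (if i.val % 10 = 2 ∨ x.1.val = i.val % 10 then 1 else 0)))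

def occ (z : ℤ → ℕ) : List ℕ → ℤ → Prop
  | [], _ => True
  | r :: l, m => z m = r ∧ occ z l (m + 1)

theorem occ_iff {z : ℤ → ℕ} {l : List ℕ} : ∀ {m}, occ z l m ↔ ∀ i < l.length, z (m + i) = l.getD i 0 := by
  induction l with
  | nil => simp [occ]
  | cons r l ih =>
    intro m
    rw [List.length_cons, Nat.forall_lt_succ_left]
    simp [occ, ih, add_assoc, add_comm (1 : ℤ)]

variable {X : List (Fin 61 × Bool) → Prop} {ζ : G (Rl X) → ℤ} {x : G (Rl X) → Al}

theorem ru_inv (h : ∀ g i, Ru i (x g) (x (g * gn _ i))) : Inv fun g => (x g).1 := by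
  let N := Subgroup.closure {g : G (Rl X) | ∃ b e r, g = mk _ [lt b e r]}
  have h1 : ∀ b e r, mk _ [lt b e r] ∈ N := fun b e r => Subgroup.subset_closure ⟨b, e, r, rfl⟩
  have h2 : ∀ n ∈ N, ∀ g, (x (g * n)).1 = (x g).1 := fun n hn => by
    induction hn using Subgroup.closure_induction with
    | mem n hn =>
      obtain ⟨b, e, r, rfl⟩ := hn
      exact fun g => ((h g _).2 (lt_ne b e r)).1
    | one => simp
    | mul a b _ _ k1 k2 => exact fun g => by rw [← mul_assoc, k2, k1]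
    | inv a _ k => exact fun g => by rw [← k, inv_mul_cancel_right]
  have h3 : ∀ b e l, mk _ (F [] [] b e l).2 ∈ N := fun b e l => by
    induction l with
    | nil => exact h1 _ _ _
    | cons r l ih =>
      simp only [F_cons, cm, List.nil_append, List.append_nil, mk_app]
      exact N.mul_mem (N.mul_mem (N.mul_mem (h1 _ _ _) ih) (h1 _ _ _)) ih
  have h4 : ∀ w, ∀ n ∈ N, (mk _ w)⁻¹ * n * mk _ w ∈ N := fun w => by
    induction w with
    | nil => simp [mk_nil]
    | cons a w ih =>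
      obtain ⟨i, β⟩ := a
      suffices ∀ n ∈ N, (mk _ [(i, β)])⁻¹ * n * mk _ [(i, β)] ∈ N from fun n hn => by
        simpa [mk_cons (i, β) w, mul_assoc] using ih _ (this n hn)
      by_cases e : i = 60
      · suffices N ≤ N.comap (MulAut.conj (mk _ [(i, β)])⁻¹).toMonoidHom from fun n hn => by
          simpa using this hn
        refine (Subgroup.closure_le _).2 ?_
        rintro _ ⟨b, c, r, rfl⟩
        have k1 := mk_rel (R := Rl X) (.inr ⟨b, c, r, .inr ⟨!β, rfl⟩⟩)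
        have k2 : mk (Rl X) [(60, !β)] = (mk _ [(60, β)])⁻¹ := by cases β <;> simp [mk_inv, gn]
        rw [mk_cons, mk_cons (lt _ _ _), mk_cons (60, !!β), ← mul_assoc, ← mul_assoc, k2,
          Bool.not_not, mul_eq_one_iff_eq_inv] at k1
        simpa [e, k1, E] using h3 _ _ _
      · have k : mk _ [(i, β)] ∈ N := by
          have := lt_of_ne e ▸ h1 (i / 20) (i / 10) i
          cases β
          exacts [mk_inv (R := Rl X) i ▸ N.inv_mem this, this]
        exact fun n hn => N.mul_mem (N.mul_mem (N.inv_mem k) hn) k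
  intro g k b e r
  obtain ⟨w, rfl⟩ := mk_surj k
  have := h2 _ (h4 w _ (h1 b e r)) (g * mk _ w)
  rwa [← mul_assoc, ← mul_assoc, mul_inv_cancel_right] at this

open Classical in
theorem hol (h : ∀ g i, Ru i (x g) (x (g * gn _ i))) (h1 : ∀ g h, ζ (g * h) = ζ g + ζ h)
    (h2 : ∀ w, ζ (mk _ w) = (w.map wt).sum) {ξ : ℤ → ℕ} (h3 : ∀ g, (x g).1.val = ξ (ζ g)) (b e : ℕ)
    (l : List ℕ) (hl : ∀ r ∈ l, r < 2) : ζ (mk _ (F [(60, true)] [(60, false)] b e l).2) = 0 ∧
      ∀ g, (x (g * mk _ (F [(60, true)] [(60, false)] b e l).2)).2.val = (x g).2.val *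
        el (rw b (e + l.length)) b (if occ ξ l (ζ g) then 1 else 0) := by
  have a1 : ∀ b e r, ζ (mk _ [lt b e r]) = 0 := fun b e r =>
    (h2 _).trans (List.sum_singleton.trans (wt_lt b e r true))
  have a2 : ∀ b e r g, r ≤ 2 → (x (g * mk _ [lt b e r])).2.val = (x g).2.val *
      el (rw b e) b (if r = 2 ∨ ξ (ζ g) = r then 1 else 0) := fun b e r g hr => by
    have := ((h g _).2 (lt_ne b e r)).2
    simp only [lt, rw, show (b % 3 * 20 + e % 2 * 10 + r % 10) / 20 = b % 3 by omega,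
      show (b % 3 * 20 + e % 2 * 10 + r % 10) / 10 % 2 = e % 2 by omega,
      show (b % 3 * 20 + e % 2 * 10 + r % 10) % 10 = r by omega, h3] at this
    simpa [rw, gn, lt] using this hr
  have a3 : ∀ g, (x (g * mk _ [(60, true)])).2 = (x g).2 := fun g => (h g 60).1 rfl
  have a4 : ∀ g, (x (g * mk _ [(60, false)])).2 = (x g).2 := fun g => by
    rw [← a3, mk_inv, gn, inv_mul_cancel_right]
  induction l with
  | nil => exact ⟨a1 .., fun g => by simpa [occ, F] using a2 b e 2 g le_rfl⟩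
  | cons r l ih =>
    obtain ⟨k1, k2, k3⟩ := rw_ne b (e + l.length)
    obtain ⟨b1, b2⟩ := ih fun r hr => hl r (by simp [hr])
    have b3 := hl r (by simp)
    have b4 : ζ (mk _ [(60, true)]) = 1 := by simp [h2, wt]
    have b5 : ζ (mk _ [(60, false)]) = -1 := by simp [h2, wt]
    simp only [F_cons, cm, mk_app, ← mul_assoc, h1, a1, a3, a4, b1, b2, b4, b5, a2 _ _ _ _ b3.le, k3,
      add_zero, add_neg_cancel_right, zero_add, add_neg_cancel, true_and]
    intro g
    rw [mul_assoc, mul_assoc, mul_assoc, ← mul_assoc (el _ _ _), ← mul_assoc (_ * el _ _ _)]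
    refine congrArg _ ((el_cm CharTwo.add_self_eq_zero (rw_ne b _).1 k2 k1 _ _).trans ?_)
    by_cases c : ξ (ζ g) = r <;> simp [occ, b3.ne, c, add_assoc]

theorem sect {Ω K : Type} [Group K] (a : Ω → K → Ω) (h1 : ∀ ω, a ω 1 = ω)
    (h2 : ∀ ω f g, a (a ω f) g = a ω (f * g)) : ∃ u : Ω → K, ∀ ω, Function.Injective (a ω) →
      ∀ f, u (a ω f) = u ω * f := by
  have h3 : ∀ ω f, Set.range (a (a ω f)) = Set.range (a ω) := fun ω f => Set.ext fun _ =>
    ⟨fun ⟨g, e⟩ => ⟨_, (h2 ..).symm.trans e⟩, fun ⟨g, e⟩ => ⟨f⁻¹ * g, by simp [h2, e]⟩⟩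
  have h4 : ∀ s : Set Ω, ∃ r : Ω → K, ∀ ω, Set.range (a ω) = s → ∀ f, Function.Injective (a ω) →
      r (a ω f) = r ω * f := fun s => by
    by_cases c : ∃ ω, Set.range (a ω) = s
    · obtain ⟨o, ho⟩ := c
      refine ⟨Function.invFun (a o), fun ω e f k => ?_⟩
      obtain ⟨g, rfl⟩ : ω ∈ Set.range (a o) := by rw [ho, ← e]; exact ⟨1, h1 ω⟩
      have : Function.Injective (a o) := fun s t e => by
        simpa using k (a₁ := g⁻¹ * s) (a₂ := g⁻¹ * t) (by simpa [h2] using e)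
      rw [h2, Function.leftInverse_invFun this, Function.leftInverse_invFun this]
    · exact ⟨fun _ => 1, fun ω e => (c ⟨ω, e⟩).elim⟩
  choose r hr using h4
  exact ⟨fun ω => r (Set.range (a ω)) ω, fun ω k f => by simpa [h3] using hr _ ω rfl f k⟩

end Pool.Agent.H.MP_bced1d_lc
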