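import Pool.Agent.H.MP_bced1d_lc.B

set_option autoImplicit false

/-! Toeplitz sequences avoiding a window of every computable sequence. -/

namespace Pool.Agent.H.MP_bced1d_lc

open Pool.Agent.Lib.helper21.PR Pool.Agent.H.MP_1220fe_lc Matrix Encodable Denumerable

attribute [local irreducible] Primrec Computable

def q (e : ℕ) : ℕ := 2 ^ (2 * e + 4)

theorem q_pos (e : ℕ) : 0 < q e := by unfold q; positivity

def Ev (e i v : ℕ) : Prop := v ∈ (ofNat Nat.Partrec.Code e).eval i

def Pt (p : List ℕ) : Prop := ∃ e, p.length = q e ∧ ∀ i < p.length, p.getD i 0 < 2 ∧ Ev e i (p.getD i 0)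

def XF (w : List (Fin 61 × Bool)) : Prop := ∃ p, Pt p ∧ w = E [(60, true)] [(60, false)] 0 0 p

theorem xf_re : RE XF := by
  have : RE fun z : ℕ × ℕ × ℕ => Ev z.1 z.2.1 z.2.2 := RE.un (r_comp (f := fun z : ℕ × ℕ × ℕ =>
    ((z.1, z.2.1), z.2.2)) (r_graph (Nat.Partrec.Code.eval_part.comp ((Computable.ofNat _).comp .fst)
      .snd)) (by fun_prop)).re
  exact RE.un (RE.re (by unfold XF Pt q; fun_prop))

open Classical in
noncomputable def zd (d : ℕ → ℕ) (m : ℤ) : Fin 2 := if ∃ e : ℕ, m % 2 ^ (e + 1) = 2 ^ e ∧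
  d e / 2 ^ ((m % q e).toNat / 2 ^ (e + 1)) % 2 = 1 then 1 else 0

theorem lev {m : ℤ} {e f : ℕ} (h : m % 2 ^ (e + 1) = 2 ^ e) (k : m % 2 ^ (f + 1) = 2 ^ f) : e = f := by
  wlog c : e ≤ f generalizing e f
  · exact (this k h (by omega)).symm
  refine c.eq_or_lt.resolve_right fun c => ?_
  rw [← Int.emod_emod_of_dvd m (pow_dvd_pow 2 (show e + 1 ≤ f + 1 by omega)), k,
    Int.emod_eq_zero_of_dvd (pow_dvd_pow 2 c)] at h
  exact (pow_pos two_pos e).ne h

theorem avoid : ∃ B, (∀ e, Finset.card (B e) ≤ q e) ∧ ∀ d ∈ Bu q B, ∀ p, Pt p →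
    ∀ m, ¬ occ (fun m => zd d m) p m := by
  let j : ℕ → ℕ → ℕ → ℕ := fun e o i => (2 ^ e + 2 ^ (e + 1) * i + (q e - o)) % q e
  let P : ℕ → ℕ → ℕ → Prop := fun e o v => v < 2 ^ (2 * e + 6) ∧
    ∀ i < 2 * e + 6, v / 2 ^ i % 2 = 1 ↔ Ev e (j e o i) 1
  have h1 : ∀ e o v w, P e o v → P e o w → v = w := fun e o v w a b =>
    Nat.eq_of_testBit_eq fun i => (lt_or_ge i (2 * e + 6)).elim (fun c => by
      simp only [Nat.testBit_eq_decide_div_mod_eq, (a.2 i c).trans (b.2 i c).symm]) fun c => by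
        have := Nat.pow_le_pow_right two_pos c
        rw [Nat.testBit_lt_two_pow (a.1.trans_le this), Nat.testBit_lt_two_pow (b.1.trans_le this)]
  refine ⟨fun e => (Finset.range (q e)).image fun o => Classical.epsilon (P e o), fun e =>
    Finset.card_image_le.trans (by simp), fun d hd p ⟨e, h2, h3⟩ m h4 => ?_⟩
  have a0 := q_pos e
  have a1 := Int.emod_nonneg m (show (q e : ℤ) ≠ 0 by omega)
  have a2 := Int.emod_lt_of_pos m (show (0 : ℤ) < q e by omega)
  have a3 : P e (m % q e).toNat (d e) := by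
    refine ⟨(hd e).1.trans_le ?_, fun i hi => ?_⟩
    · rw [show 2 * e + 6 = 2 * e + 4 + 2 by omega, pow_add, ← q]
      have : 2 ^ 1 ≤ q e := Nat.pow_le_pow_right two_pos (by omega)
      omega
    have b1 : j e (m % q e).toNat i < p.length := (Nat.mod_lt _ a0).trans_eq h2.symm
    have b2 : 2 ^ e + 2 ^ (e + 1) * i < q e := by
      have : e + 2 < 2 ^ (e + 2) := Nat.lt_two_pow_self
      have : 0 < 2 ^ e := by positivity
      rw [q, show 2 * e + 4 = e + 1 + (e + 2 + 1) by omega, pow_add 2 (e + 1), pow_succ 2 (e + 2),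
        pow_succ 2 e]
      nlinarith
    have b3 : (m + j e (m % q e).toNat i) % q e = (2 ^ e + 2 ^ (e + 1) * i : ℕ) := by
      rw [← Nat.mod_eq_of_lt b2, Int.natCast_mod, Int.natCast_mod, Int.add_emod_emod,
        ← Int.emod_add_emod, ← Int.add_emod_right (2 ^ e + 2 ^ (e + 1) * i : ℕ)]
      congr 1
      omega
    have b4 : (m + j e (m % q e).toNat i) % 2 ^ (e + 1) = 2 ^ e := by
      rw [← Int.emod_emod_of_dvd _ (show 2 ^ (e + 1) ∣ (q e : ℤ) by
        exact_mod_cast pow_dvd_pow 2 (by omega)), b3]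
      push_cast
      rw [Int.add_mul_emod_self_left]
      exact Int.emod_eq_of_lt (by positivity) (pow_lt_pow_right₀ one_lt_two e.lt_succ_self)
    have b5 := occ_iff.1 h4 _ b1
    have b6 := h3 _ b1
    have b7 : (2 ^ e + 2 ^ (e + 1) * i) / 2 ^ (e + 1) = i := by
      rw [Nat.add_mul_div_left _ _ (by positivity), Nat.div_eq_of_lt
        (Nat.pow_lt_pow_right one_lt_two e.lt_succ_self), zero_add]
    generalize m + j e (m % q e).toNat i = n at b3 b4 b5
    rw [← b5, zd] at b6
    split_ifs at b6 with c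
    · obtain ⟨f, c1, c2⟩ := c
      obtain rfl := lev b4 c1
      rw [b3, Int.toNat_natCast, b7] at c2
      exact iff_of_true c2 b6.2
    · refine iff_of_false (fun k => c ⟨e, b4, by rwa [b3, Int.toNat_natCast, b7]⟩) fun k => ?_
      simpa using Part.mem_unique k b6.2
  exact (hd e).2 (Finset.mem_image.2 ⟨_, Finset.mem_range.2 (by omega),
    h1 _ _ _ _ (Classical.epsilon_spec ⟨_, a3⟩) a3⟩)

theorem dec_len {α : Type} [Encodable α] (n : ℕ) : ∀ w : List α, decode n = some w → w.length ≤ n := by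
  induction n using Nat.strong_induction_on with
  | _ n ih =>
    intro w h
    cases n with
    | zero => simp_all
    | succ n =>
      rw [decode_list_succ] at h
      cases e : decode (α := α) n.unpair.1 <;> cases f : decode (α := List α) n.unpair.2 <;>
        rw [e, f] at h <;> cases h
      have := ih _ (Nat.lt_succ_of_le n.unpair_right_le) _ f
      have := n.unpair_right_le
      rw [List.length_cons]
      omega

theorem zd_tt : ∃ g : List ℕ → ℕ → ℕ, Primrec (fun z : List ℕ × ℕ => g z.1 z.2) ∧ ∀ d n,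
    g (pf d (n + 1)) n = (decode (α := List (Fin 61 × Bool)) n).elim 0
      fun w => (zd d (w.map wt).sum).val := by
  have := p_ct true
  have := p_ct false
  refine ⟨fun σ n => ((decode (α := List (Fin 61 × Bool)) n).map fun w => if ∃ e < σ.length,
    (ct true w + (2 ^ (e + 1) - 1) * ct false w) % 2 ^ (e + 1) = 2 ^ e ∧ σ.getD e 0 / 2 ^
      ((ct true w + (q e - 1) * ct false w) % q e / 2 ^ (e + 1)) % 2 = 1 then 1 else 0).getD 0,
    by unfold q; fun_prop, fun d n => ?_⟩
  dsimp only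
  cases h : decode (α := List (Fin 61 × Bool)) n with
  | none => rfl
  | some w =>
    have h1 : ∀ e : ℕ, ((ct true w : ℤ) - ct false w) % 2 ^ (e + 1) = 2 ^ e ↔
        (ct true w + (2 ^ (e + 1) - 1) * ct false w) % 2 ^ (e + 1) = 2 ^ e := fun e => by
      have := emod (ct true w) (ct false w) (show 0 < 2 ^ (e + 1) by positivity)
      rw [Nat.cast_pow, Nat.cast_ofNat] at this
      rw [this]
      norm_cast
    classical
    rw [Option.elim_some, wt_ct]
    simp only [Option.map_some, Option.getD_some, zd, emod _ _ (q_pos _),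
      Int.toNat_natCast, apply_ite Fin.val, ← h1, pf_len]
    refine if_congr (exists_congr fun e => ⟨fun ⟨a, b⟩ => by rwa [pf_getD _ a] at b, fun b => ?_⟩) rfl rfl
    have : e < n + 1 := by
      have c1 : (2 : ℤ) ^ e ∣ ct true w - ct false w := by
        rw [← Int.emod_add_mul_ediv (_ - _) (2 ^ (e + 1)), b.1]
        exact Dvd.dvd.add dvd_rfl ((pow_dvd_pow 2 e.le_succ).mul_right _)
      have c2 := Int.natAbs_le_of_dvd_ne_zero c1 fun k => (pow_pos two_pos e).ne (by simpa [k] using b.1)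
      have c3 : ct true w ≤ w.length := List.countP_le_length
      have c4 : ct false w ≤ w.length := List.countP_le_length
      have c5 := dec_len n w h
      have c6 : e < 2 ^ e := Nat.lt_two_pow_self
      rw [Int.natAbs_pow] at c2
      change 2 ^ e ≤ _ at c2
      omega
    exact ⟨this, by rwa [pf_getD _ this]⟩

end Pool.Agent.H.MP_bced1d_lc
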