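import Pool.Agent.H.MP_bced1d_lc.C

set_option autoImplicit false

/-! Existence of the holonomy layer. -/

namespace Pool.Agent.H.MP_bced1d_lc

open Pool.Agent.Lib.helper21.PR Pool.Agent.H.MP_1220fe_lc Matrix

theorem vl_occ (z : ℤ → ℕ) (p : List ℕ) (h : ∀ r ∈ p, r < 2) :
    vl (ρ 1 z) (sh 1) (sh (-1)) p = op (fun a => occ z p a.1) id := by
  induction p with
  | nil => exact (op_one (by simp [occ]) fun _ => rfl).symm
  | cons r l ih =>
    rw [vl, List.foldr_cons, ← vl, ih fun r hr => h r (by simp [hr])]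
    obtain rfl | rfl : r = 0 ∨ r = 1 := by have := h r (by simp); omega
    all_goals simp [ρ, sh, op_mul, occ]; rfl

theorem Pt.lt {p : List ℕ} (h : Pt p) : ∀ r ∈ p, r < 2 := fun r hr => by
  obtain ⟨i, hi, rfl⟩ := List.getElem_of_mem hr
  obtain ⟨e, -, h⟩ := h
  simpa [hi] using (h i hi).1

theorem lift_ex {ζ : G (Rl XF) → ℤ} (h1 : ∀ g h, ζ (g * h) = ζ g + ζ h)
    (h2 : ∀ w, ζ (mk _ w) = (w.map wt).sum) (z : ℤ → Fin 2)
    (h : ∀ p, Pt p → ∀ m, ¬ occ (fun m => z m) p m) : ∃ x : G (Rl XF) → Al,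
      (∀ g i, Ru i (x g) (x (g * gn _ i))) ∧ ∀ g, (x g).1 = z (ζ g) := by
  obtain ⟨ψ, a1⟩ := model (X := XF) 1 (fun m => z m) fun w ⟨p, k1, k2⟩ => by
    rw [k2, md, ml_E _ _ _ en2 (σ := sh 1) (σ' := sh (-1)) (by simp [ml]) (by simp [ml]) (sh_mul 1),
      vl_occ _ _ k1.lt, op_zero fun a => h p k1 _, el_zero]
  let T : ℤ → En := fun m => op (fun a => a.1 = m) fun a => (0, a.2)
  let ι := (algebraMap (ZMod 2) En).mapMatrix (m := ZMod 3)
  obtain ⟨u, hu⟩ := sect (K := (Matrix (ZMod 3) (ZMod 3) (ZMod 2))ˣ) (fun ω f => ω * ι f.val)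
    (by simp) (by simp [mul_assoc])
  have a2 : ∀ g, Function.Injective fun f : (Matrix (ZMod 3) (ZMod 3) (ZMod 2))ˣ =>
      ψ g * scalar _ (T (ζ g)) * ι f.val := fun g f f' e => Units.ext (Matrix.ext fun i j => by
    have := congrArg (fun M => (ψ g⁻¹ * M) i j (fun _ => 1) (ζ g, 0)) e
    simp only [← mul_assoc, ← map_mul, inv_mul_cancel, map_one, one_mul] at this
    simpa [ι, T, op] using this)
  refine ⟨fun g => (z (ζ g), u (ψ g * scalar _ (T (ζ g)))), fun g i => ⟨?_, fun e => ?_⟩, fun _ => rfl⟩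
  · rintro rfl
    have : sh 1 * T (ζ g + 1) = T (ζ g) := by simp [T, sh, op_mul]
    refine congrArg u ?_
    rw [map_mul, h1, gn, a1, h2, mul_assoc, ← this, map_mul]
    simp [md, ml, wt]
  · have b1 : ζ (g * gn _ i) = ζ g := by simp [h1, h2, gn, wt, e]
    refine ⟨by simp [b1], fun k => ?_⟩
    have b2 := (rw_ne (i / 20) (i / 10)).1
    refine (congrArg (fun ω => (u ω).val) ?_).trans (congrArg Units.val (hu _ (a2 g) ⟨_, _,
      el_sq CharTwo.add_self_eq_zero b2 _, el_sq CharTwo.add_self_eq_zero b2 _⟩))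
    have b3 : ρ 1 (fun m => z m) (i.val % 10) * T (ζ g) = T (ζ g) * algebraMap (ZMod 2) En
        (if i.val % 10 = 2 ∨ (z (ζ g)).val = i.val % 10 then 1 else 0) := by
      have b4 : ∀ r, op (fun a => (z a.1).val = r) id * T (ζ g) = T (ζ g) * algebraMap (ZMod 2) En
          (if (z (ζ g)).val = r then 1 else 0) := fun r => by
        split_ifs with c
        · rw [map_one, mul_one]
          exact op_mul.trans (op_congr (fun a => and_iff_right_of_imp fun (k : a.1 = _) => k ▸ c)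
            fun _ _ => rfl)
        · rw [map_zero, mul_zero]
          exact op_mul.trans (op_zero fun a k => c ((show a.1 = _ from k.2) ▸ k.1))
      generalize i.val % 10 = r at k
      obtain rfl | rfl | rfl : r = 0 ∨ r = 1 ∨ r = 2 := by omega
      exacts [by simpa [ρ] using b4 0, by simpa [ρ] using b4 1, by simp [ρ]]
    rw [b1, map_mul, mul_assoc, mul_assoc, gn, a1]
    refine congrArg _ (Matrix.ext fun a b => ?_)
    simp only [List.map_singleton, List.prod_singleton, md, ml, if_neg e, el, ι, scalar_apply,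
      mul_diagonal, diagonal_mul, RingHom.mapMatrix_apply, map_apply, Matrix.add_apply, single_apply,
      one_apply, map_add, add_mul, mul_add]
    split_ifs <;> simp_all

end Pool.Agent.H.MP_bced1d_lc
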